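import Mathlib

/-! # Directed domination in oriented complete hypergraphs (helper634) -/

set_option autoImplicit false

open Finset

namespace Pool.Agent.TH634.DD

section core

variable {V : Type} [Fintype V] [DecidableEq V] (B : V → V → Prop) [DecidableRel B]

/-- large out-degree and common in-neighbours -/
def Univ (κ : ℕ) : Prop :=
  ∀ S : Finset V, S.card ≤ κ → ∃ u, (∀ s ∈ S, B u s) ∧ κ ≤ (univ.filter fun v => B u v).card

variable {B}

/-- one step of the greedy algorithm -/
theorem greedy_step {κ : ℕ} (hU : Univ B κ) (U : Finset V) :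
    ∃ u, U.card ^ κ ≤ Fintype.card V * (U.filter fun v => B u v).card ^ κ := by
  classical
  by_contra hcon
  push Not at hcon
  -- all maps `Fin κ → U`
  have hcov : (Fintype.piFinset fun _ : Fin κ => U) ⊆
      (univ : Finset V).biUnion fun u => Fintype.piFinset fun _ : Fin κ => U.filter fun v => B u v := by
    intro f hf
    rw [Fintype.mem_piFinset] at hf
    obtain ⟨u, hu, -⟩ := hU (univ.image f) (card_image_le.trans (by simp))
    rw [mem_biUnion]
    refine ⟨u, mem_univ _, ?_⟩
    rw [Fintype.mem_piFinset]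
    intro i
    rw [mem_filter]
    exact ⟨hf i, hu _ (mem_image_of_mem _ (mem_univ i))⟩
  have h1 : U.card ^ κ ≤ ∑ u : V, (U.filter fun v => B u v).card ^ κ := by
    calc U.card ^ κ = (Fintype.piFinset fun _ : Fin κ => U).card := by
          rw [Fintype.card_piFinset]; simp
      _ ≤ _ := card_le_card hcov
      _ ≤ ∑ u : V, (Fintype.piFinset fun _ : Fin κ => U.filter fun v => B u v).card :=
          card_biUnion_le
      _ = _ := by
          refine sum_congr rfl fun u _ => ?_
          rw [Fintype.card_piFinset]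
          simp
  obtain ⟨u0, -, -⟩ := hU ∅ (by simp)
  have hV : 0 < Fintype.card V := Fintype.card_pos_iff.2 ⟨u0⟩
  have h2 : (Fintype.card V) * ∑ u : V, (U.filter fun v => B u v).card ^ κ <
      (Fintype.card V) * U.card ^ κ := by
    rw [mul_sum]
    calc ∑ u : V, Fintype.card V * (U.filter fun v => B u v).card ^ κ < ∑ _u : V, U.card ^ κ :=
          sum_lt_sum_of_nonempty ⟨u0, mem_univ _⟩ fun u _ => hcon u
      _ = Fintype.card V * U.card ^ κ := by rw [sum_const, card_univ, smul_eq_mul]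
  have h3 := Nat.lt_of_mul_lt_mul_left h2
  omega

/-- the greedy algorithm -/
theorem greedy {κ : ℕ} (hκ : 0 < κ) (hU : Univ B κ) (δ : ℝ) (hδ0 : 0 < δ) (hδ1 : δ ≤ 1)
    (hδ : (Fintype.card V : ℝ) * δ ^ κ ≤ 1) (k : ℕ) :
    ∃ T : Finset V, T.card ≤ k ∧
      ((univ.filter fun v => ∀ t ∈ T, ¬ B t v).card : ℝ) ≤ Fintype.card V * (1 - δ) ^ k := by
  classical
  induction k with
  | zero =>
    refine ⟨∅, by simp, ?_⟩
    simp
  | succ k ih =>
    obtain ⟨T, hT, hc⟩ := ih
    set U := univ.filter fun v => ∀ t ∈ T, ¬ B t v with hUdef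
    obtain ⟨u, hu⟩ := greedy_step hU U
    have h1 : δ * (U.card : ℝ) ≤ ((U.filter fun v => B u v).card : ℝ) := by
      have h2 : ((U.card : ℝ)) ^ κ ≤ Fintype.card V * ((U.filter fun v => B u v).card : ℝ) ^ κ := by
        exact_mod_cast hu
      have h3 : (δ * (U.card : ℝ)) ^ κ ≤ ((U.filter fun v => B u v).card : ℝ) ^ κ := by
        rw [mul_pow]
        calc δ ^ κ * (U.card : ℝ) ^ κ ≤
              δ ^ κ * (Fintype.card V * ((U.filter fun v => B u v).card : ℝ) ^ κ) :=
                mul_le_mul_of_nonneg_left h2 (by positivity)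
          _ = (Fintype.card V * δ ^ κ) * ((U.filter fun v => B u v).card : ℝ) ^ κ := by ring
          _ ≤ 1 * ((U.filter fun v => B u v).card : ℝ) ^ κ :=
                mul_le_mul_of_nonneg_right hδ (by positivity)
          _ = _ := one_mul _
      exact le_of_pow_le_pow_left₀ hκ.ne' (by positivity) h3
    refine ⟨insert u T, (card_insert_le _ _).trans (by omega), ?_⟩
    have h4 : (univ.filter fun v => ∀ t ∈ insert u T, ¬ B t v) = U.filter fun v => ¬ B u v := by
      ext v
      simp only [hUdef, mem_filter, mem_univ, true_and, mem_insert, forall_eq_or_imp]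
      tauto
    rw [h4]
    have h5 : ((U.filter fun v => B u v).card : ℝ) + ((U.filter fun v => ¬ B u v).card : ℝ) =
        U.card := by
      exact_mod_cast card_filter_add_card_filter_not (s := U) (fun v => B u v)
    rw [pow_succ]
    nlinarith

/-- chains -/
theorem chains {κ : ℕ} (hκ : 0 < κ) (hU : Univ B κ) (m : ℕ) :
    ∀ T : Finset V, T.card ≤ κ ^ (m + 1) → ∃ z, κ ≤ (univ.filter fun v => B z v).card ∧
      ∀ t ∈ T, ∃ A : Finset V, A.card ≤ m + 2 ∧ z ∈ A ∧ t ∈ A ∧
        ∀ x ∈ A, x ≠ z → ∃ y ∈ A, B y x := by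
  classical
  induction m with
  | zero =>
    intro T hT
    obtain ⟨z, hz, hd⟩ := hU T (by simpa using hT)
    refine ⟨z, hd, fun t ht => ⟨{z, t}, card_le_two, by simp, by simp, ?_⟩⟩
    intro x hx hxz
    rw [mem_insert, mem_singleton] at hx
    rcases hx with rfl | rfl
    · exact absurd rfl hxz
    · exact ⟨z, by simp, hz _ ht⟩
  | succ m ih =>
    intro T hT
    let e := T.equivFin
    let gr : ℕ → Finset V := fun g => T.attach.filter (fun t => ((e t : Fin T.card) : ℕ) / κ = g)
      |>.image Subtype.val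
    have hgr : ∀ g, (gr g).card ≤ κ := by
      intro g
      refine card_image_le.trans ?_
      have h1 : (T.attach.filter (fun t => ((e t : Fin T.card) : ℕ) / κ = g)).card ≤
          (Finset.range κ).card := by
        refine card_le_card_of_injOn (fun t => ((e t : Fin T.card) : ℕ) % κ) ?_ ?_
        · intro t _
          rw [mem_coe, mem_range]
          exact Nat.mod_lt _ hκ
        · intro t ht t' ht' h
          rw [mem_coe, mem_filter] at ht ht'
          have h2 := Nat.div_add_mod ((e t : Fin T.card) : ℕ) κ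
          have h3 := Nat.div_add_mod ((e t' : Fin T.card) : ℕ) κ
          simp only at h
          rw [ht.2, h] at h2
          rw [ht'.2] at h3
          have h4 : ((e t : Fin T.card) : ℕ) = ((e t' : Fin T.card) : ℕ) := by omega
          exact e.injective (Fin.ext h4)
      rw [card_range] at h1
      exact h1
    choose w hw _ using fun g => hU (gr g) (hgr g)
    obtain ⟨z, hz, hA⟩ := ih ((Finset.range (κ ^ (m + 1))).image w)
      (card_image_le.trans (by simp))
    refine ⟨z, hz, fun t ht => ?_⟩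
    set g := ((e ⟨t, ht⟩ : Fin T.card) : ℕ) / κ with hg
    have hglt : g < κ ^ (m + 1) := by
      rw [hg, Nat.div_lt_iff_lt_mul hκ]
      have h1 := (e ⟨t, ht⟩).2
      calc ((e ⟨t, ht⟩ : Fin T.card) : ℕ) < T.card := h1
        _ ≤ κ ^ (m + 1 + 1) := hT
        _ = κ ^ (m + 1) * κ := pow_succ _ _
    have htg : t ∈ gr g := by
      rw [mem_image]
      exact ⟨⟨t, ht⟩, mem_filter.2 ⟨mem_attach _ _, rfl⟩, rfl⟩
    obtain ⟨A, hA1, hA2, hA3, hA4⟩ := hA (w g) (mem_image_of_mem _ (mem_range.2 hglt))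
    refine ⟨insert t A, (card_insert_le _ _).trans (by omega), mem_insert_of_mem hA2,
      mem_insert_self _ _, ?_⟩
    intro x hx hxz
    rw [mem_insert] at hx
    rcases hx with rfl | hx
    · exact ⟨w g, mem_insert_of_mem hA3, hw g _ htg⟩
    · obtain ⟨y, hy, hyx⟩ := hA4 x hx hxz
      exact ⟨y, mem_insert_of_mem hy, hyx⟩

/-- the main inequality -/
theorem core {κ r : ℕ} (hr : 2 ≤ r) (hκ : r ≤ κ) (hU : Univ B κ)
    (hL : ∀ E : Finset V, E.card = r → ∃ v ∈ E, ∀ u ∈ E, ¬ B u v)
    (δ : ℝ) (hδ0 : 0 < δ) (hδ1 : δ ≤ 1) (hδ : (Fintype.card V : ℝ) * δ ^ κ ≤ 1)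
    (k : ℕ) (hk : (Fintype.card V : ℝ) * (1 - δ) ^ k < 1) : κ ^ (r - 1) < k := by
  classical
  by_contra hcon
  push Not at hcon
  obtain ⟨T, hT, hc⟩ := greedy (by omega) hU δ hδ0 hδ1 hδ k
  have h0 : (univ.filter fun v => ∀ t ∈ T, ¬ B t v).card = 0 := by
    have h1 : ((univ.filter fun v => ∀ t ∈ T, ¬ B t v).card : ℝ) < 1 := lt_of_le_of_lt hc hk
    have h2 : (univ.filter fun v => ∀ t ∈ T, ¬ B t v).card < 1 := by exact_mod_cast h1
    omega
  obtain ⟨m, rfl⟩ : ∃ m, r = m + 2 := ⟨r - 2, by omega⟩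
  obtain ⟨z, hz, hA⟩ := chains (by omega) hU m T (by
    have : m + 2 - 1 = m + 1 := by omega
    rw [this] at hcon
    omega)
  have hcov : ∃ t ∈ T, B t z := by
    by_contra h
    push Not at h
    have : z ∈ (univ.filter fun v => ∀ t ∈ T, ¬ B t v) := mem_filter.2 ⟨mem_univ _, h⟩
    rw [card_eq_zero] at h0
    rw [h0] at this
    exact absurd this (notMem_empty _)
  obtain ⟨t, ht, htz⟩ := hcov
  obtain ⟨A, hA1, hA2, hA3, hA4⟩ := hA t ht
  obtain ⟨E, hE1, hE2, hE3⟩ := exists_subsuperset_card_eq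
    (s := A) (t := A ∪ univ.filter fun v => B z v) subset_union_left hA1
    (by
      calc m + 2 ≤ κ := hκ
        _ ≤ _ := hz
        _ ≤ _ := card_le_card subset_union_right)
  obtain ⟨v, hv, hvE⟩ := hL E hE3
  rcases mem_union.1 (hE2 hv) with h | h
  · by_cases hvz : v = z
    · subst hvz
      exact hvE t (hE1 hA3) htz
    · obtain ⟨y, hy, hyv⟩ := hA4 v h hvz
      exact hvE y (hE1 hy) hyv
  · exact hvE z (hE1 hA2) (mem_filter.1 h).2

end core

end Pool.Agent.TH634.DD
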