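import Pool.Agent.TH634.DD.Core

/-! # The upper directed domination number of complete hypergraphs (helper634) -/

set_option autoImplicit false

open Finset Filter

namespace Pool.Agent.TH634.DD

/-- An orientation of the complete `r`-uniform hypergraph on `Fin n`: a linear ordering (a list
without repetitions) of each `r`-subset. -/
def IsOrientation (n r : ℕ) (D : Finset (Fin n) → List (Fin n)) : Prop :=
  ∀ E : Finset (Fin n), E.card = r → (D E).Nodup ∧ (D E).toFinset = E

/-- `S` is a directed `p`-dominating set of the orientation `D`: every vertex outside `S` lies in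
an edge whose first `p` vertices belong to `S`. -/
def IsDominating (n r p : ℕ) (D : Finset (Fin n) → List (Fin n)) (S : Finset (Fin n)) : Prop :=
  ∀ u, u ∉ S → ∃ E : Finset (Fin n), E.card = r ∧ u ∈ E ∧ ∀ x ∈ (D E).take p, x ∈ S

/-- the smallest size of a directed `p`-dominating set of the orientation `D` -/
noncomputable def gamma (n r p : ℕ) (D : Finset (Fin n) → List (Fin n)) : ℕ :=
  sInf {k | ∃ S : Finset (Fin n), S.card = k ∧ IsDominating n r p D S}

/-- the upper directed `p`-domination number of the complete `r`-uniform hypergraph `H(n, r)` -/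
noncomputable def Gamma (n r p : ℕ) : ℕ :=
  sSup {k | ∃ D, IsOrientation n r D ∧ gamma n r p D = k}

theorem asym (r : ℕ) (hr : 3 ≤ r) (c : ℝ) (hc : 1 / ((r : ℝ) - 2) < c) :
    ∀ᶠ L : ℝ in atTop, r ≤ ⌊c * L / Real.log L⌋₊ ∧
      L * Real.exp (L / (⌊c * L / Real.log L⌋₊ : ℝ)) < (⌊c * L / Real.log L⌋₊ : ℝ) ^ (r - 1) := by
  have hrR : (3 : ℝ) ≤ r := by exact_mod_cast hr
  have hr2 : (0 : ℝ) < (r : ℝ) - 2 := by linarith
  have h0 : 0 < 1 / ((r : ℝ) - 2) := by positivity
  set c' : ℝ := (c + 1 / ((r : ℝ) - 2)) / 2 with hc'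
  have hc'0 : 0 < c' := by rw [hc']; linarith
  have hc'1 : 1 / ((r : ℝ) - 2) < c' := by rw [hc']; linarith
  have hc'2 : c' < c := by rw [hc']; linarith
  set a : ℝ := 1 / c' with ha
  have ha1 : a < (r : ℝ) - 2 := by
    rw [ha, div_lt_iff₀ hc'0]
    rw [div_lt_iff₀ hr2] at hc'1
    linarith
  set η : ℝ := (r : ℝ) - 2 - a with hη
  have hη0 : 0 < η := by rw [hη]; linarith
  set ε : ℝ := min (c - c') (c' / r) with hε
  have hε0 : 0 < ε := lt_min (by linarith) (by positivity)
  have e1 := Real.isLittleO_log_id_atTop.bound hε0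
  have e2 := (isLittleO_log_rpow_rpow_atTop ((r : ℝ) - 1) hη0).bound
    (show (0 : ℝ) < c' ^ (r - 1) / 2 by positivity)
  filter_upwards [e1, e2, eventually_gt_atTop (Real.exp 1)] with L h1 h2 h3
  have hL1 : 1 < L := lt_trans (Real.one_lt_exp_iff.2 one_pos) h3
  have hL0 : 0 < L := by linarith
  set l : ℝ := Real.log L with hl
  have hl1 : 1 < l := by
    rw [hl, Real.lt_log_iff_exp_lt hL0]
    exact h3
  have hl0 : 0 < l := by linarith
  rw [Real.norm_of_nonneg hl0.le, id, Real.norm_of_nonneg hL0.le] at h1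
  have h4 : 1 / ε ≤ L / l := by
    rw [div_le_div_iff₀ hε0 hl0]
    linarith
  have h5 : 1 ≤ (c - c') * (L / l) := by
    calc (1 : ℝ) = ε * (1 / ε) := by field_simp
      _ ≤ (c - c') * (L / l) := mul_le_mul (min_le_left _ _) h4 (by positivity) (by linarith)
  have h6 : (r : ℝ) ≤ c' * (L / l) := by
    have h7 : r * ε ≤ c' := by
      have : ε ≤ c' / r := min_le_right _ _
      rw [le_div_iff₀ (by positivity)] at this
      linarith
    calc (r : ℝ) = r * ε * (1 / ε) := by field_simp
      _ ≤ c' * (L / l) := mul_le_mul h7 h4 (by positivity) hc'0.le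
  set κ : ℕ := ⌊c * L / l⌋₊ with hκ
  have h7 : c' * (L / l) ≤ κ := by
    have h8 : c * L / l < κ + 1 := Nat.lt_floor_add_one _
    have h9 : c * L / l = c' * (L / l) + (c - c') * (L / l) := by ring
    linarith
  have hκr : (r : ℝ) ≤ κ := h6.trans h7
  have hκ0 : (0 : ℝ) < κ := by linarith
  refine ⟨by exact_mod_cast hκr, ?_⟩
  have h8 : L / κ ≤ a * l := by
    rw [div_le_iff₀ hκ0]
    calc L = a * l * (c' * (L / l)) := by rw [ha]; field_simp
      _ ≤ a * l * κ := mul_le_mul_of_nonneg_left h7 (by positivity)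
  have h9 : Real.exp (L / κ) ≤ L ^ a := by
    rw [Real.rpow_def_of_pos hL0]
    exact Real.exp_le_exp.2 (by rw [← hl]; linarith)
  have h10 : (c' * (L / l)) ^ (r - 1) ≤ (κ : ℝ) ^ (r - 1) := pow_le_pow_left₀ (by positivity) h7 _
  refine lt_of_lt_of_le ?_ h10
  refine lt_of_le_of_lt (mul_le_mul_of_nonneg_left h9 hL0.le) ?_
  rw [mul_pow c' (L / l), div_pow L l]
  have hcast : ((r - 1 : ℕ) : ℝ) = (r : ℝ) - 1 := by
    rw [Nat.cast_sub (by omega)]; simp
  have h11 : l ^ (r - 1) ≤ c' ^ (r - 1) / 2 * L ^ η := by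
    have h12 : ‖l ^ ((r : ℝ) - 1)‖ ≤ c' ^ (r - 1) / 2 * ‖L ^ η‖ := h2
    rw [Real.norm_of_nonneg (by positivity), Real.norm_of_nonneg (by positivity), ← hcast,
      Real.rpow_natCast] at h12
    exact h12
  have h12 : L * L ^ a * L ^ η = L ^ (r - 1) := by
    rw [← Real.rpow_natCast L (r - 1), hcast]
    nth_rewrite 1 [← Real.rpow_one L]
    rw [← Real.rpow_add hL0, ← Real.rpow_add hL0]
    congr 1
    rw [hη]; ring
  have h13 : 0 < c' ^ (r - 1) := by positivity
  have h14 : 0 < L * L ^ a := by positivity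
  rw [mul_div_assoc', lt_div_iff₀ (by positivity)]
  calc L * L ^ a * l ^ (r - 1) ≤ L * L ^ a * (c' ^ (r - 1) / 2 * L ^ η) :=
        mul_le_mul_of_nonneg_left h11 h14.le
    _ = c' ^ (r - 1) * (L * L ^ a * L ^ η) / 2 := by ring
    _ = c' ^ (r - 1) * L ^ (r - 1) / 2 := by rw [h12]
    _ < c' ^ (r - 1) * L ^ (r - 1) := by
        have : 0 < c' ^ (r - 1) * L ^ (r - 1) := by positivity
        linarith

theorem gamma_le (n r κ : ℕ) (hr : 3 ≤ r) (hκ : r ≤ κ) (hn : 1 < n)
    (h : Real.log n * Real.exp (Real.log n / κ) < (κ : ℝ) ^ (r - 1))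
    (D : Finset (Fin n) → List (Fin n)) (hD : IsOrientation n r D) : gamma n r 1 D ≤ κ := by
  classical
  by_contra hcon
  push Not at hcon
  have hno : ∀ S : Finset (Fin n), S.card ≤ κ → ¬ IsDominating n r 1 D S := by
    intro S hS hdom
    have h1 : gamma n r 1 D ≤ S.card := Nat.sInf_le ⟨S, rfl, hdom⟩
    omega
  have hκn : κ < n := by
    by_contra h1
    push Not at h1
    refine hno univ (by simpa using h1) ?_
    intro u hu
    exact absurd (mem_univ u) hu
  let B : Fin n → Fin n → Prop := fun u v => u ≠ v ∧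
    ¬ ∃ E : Finset (Fin n), E.card = r ∧ u ∈ E ∧ (D E).head? = some v
  have hU : Univ B κ := by
    intro S hS
    obtain ⟨S', hS1, hS2⟩ := exists_superset_card_eq hS (by simpa using hκn.le)
    have h1 := hno S' hS2.le
    unfold IsDominating at h1
    push Not at h1
    obtain ⟨u, hu, h2⟩ := h1
    have h3 : ∀ s ∈ S', B u s := by
      intro s hs
      refine ⟨fun h => hu (h ▸ hs), ?_⟩
      rintro ⟨E, hE1, hE2, hE3⟩
      obtain ⟨x, hx1, hx2⟩ := h2 E hE1 hE2
      cases hl : D E with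
      | nil => rw [hl] at hE3; simp at hE3
      | cons b l =>
        rw [hl] at hE3 hx1
        simp only [List.head?_cons, Option.some.injEq] at hE3
        simp only [List.take_succ_cons, List.take_zero, List.mem_singleton] at hx1
        rw [hx1, hE3] at hx2
        exact hx2 hs
    refine ⟨u, fun s hs => h3 s (hS1 hs), ?_⟩
    rw [← hS2]
    refine card_le_card fun s hs => ?_
    rw [mem_filter]
    exact ⟨mem_univ _, h3 s hs⟩
  have hL : ∀ E : Finset (Fin n), E.card = r → ∃ v ∈ E, ∀ u ∈ E, ¬ B u v := by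
    intro E hE
    obtain ⟨-, hE2⟩ := hD E hE
    cases hl : D E with
    | nil =>
      rw [hl] at hE2
      simp only [List.toFinset_nil] at hE2
      rw [← hE2] at hE
      simp at hE
      omega
    | cons b l =>
      have hb : b ∈ E := by
        rw [← hE2, hl]
        simp
      refine ⟨b, hb, fun u hu hB => hB.2 ⟨E, hE, hu, ?_⟩⟩
      rw [hl]
      rfl
  have hnR : (1 : ℝ) < n := by exact_mod_cast hn
  have hn0 : (0 : ℝ) < n := by linarith
  have hκ0 : (0 : ℝ) < κ := by
    have : 0 < κ := by omega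
    exact_mod_cast this
  have hlog : 0 < Real.log n := Real.log_pos hnR
  set δ : ℝ := Real.exp (-(Real.log n / κ)) with hδ
  have hδ0 : 0 < δ := Real.exp_pos _
  have hδ1 : δ ≤ 1 := by
    rw [hδ]
    exact Real.exp_le_one_iff.2 (by have : 0 < Real.log n / κ := by positivity
                                    linarith)
  have hδκ : (Fintype.card (Fin n) : ℝ) * δ ^ κ ≤ 1 := by
    rw [Fintype.card_fin, hδ, ← Real.exp_nat_mul]
    have e1 : (κ : ℝ) * -(Real.log n / κ) = -Real.log n := by field_simp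
    rw [e1, Real.exp_neg, Real.exp_log hn0]
    exact (mul_inv_cancel₀ hn0.ne').le
  have hk : (Fintype.card (Fin n) : ℝ) * (1 - δ) ^ (κ ^ (r - 1)) < 1 := by
    rw [Fintype.card_fin]
    have e1 : (1 - δ) ^ (κ ^ (r - 1)) ≤ Real.exp (-(δ * (κ : ℝ) ^ (r - 1))) := by
      calc (1 - δ) ^ (κ ^ (r - 1)) ≤ (Real.exp (-δ)) ^ (κ ^ (r - 1)) :=
            pow_le_pow_left₀ (by linarith) (Real.one_sub_le_exp_neg δ) _
        _ = Real.exp (-(δ * (κ : ℝ) ^ (r - 1))) := by
            rw [← Real.exp_nat_mul]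
            congr 1
            push_cast
            ring
    have e2 : Real.log n < δ * (κ : ℝ) ^ (r - 1) := by
      have e3 : δ * (Real.log n * Real.exp (Real.log n / κ)) < δ * (κ : ℝ) ^ (r - 1) :=
        mul_lt_mul_of_pos_left h hδ0
      have e4 : δ * (Real.log n * Real.exp (Real.log n / κ)) = Real.log n := by
        rw [hδ, Real.exp_neg]
        field_simp
      linarith
    calc (n : ℝ) * (1 - δ) ^ (κ ^ (r - 1)) ≤ n * Real.exp (-(δ * (κ : ℝ) ^ (r - 1))) :=
          mul_le_mul_of_nonneg_left e1 hn0.le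
      _ = Real.exp (Real.log n - δ * (κ : ℝ) ^ (r - 1)) := by
          rw [Real.exp_sub, Real.exp_log hn0, Real.exp_neg]; rfl
      _ < 1 := by
          rw [Real.exp_lt_one_iff]
          linarith
  have := core (B := B) (by omega) hκ hU hL δ hδ0 hδ1 hδκ _ hk
  omega

/-- the asymptotic upper bound -/
theorem main (r : ℕ) (hr : 3 ≤ r) (c : ℝ) (hc : 1 / ((r : ℝ) - 2) < c) :
    ∃ N : ℕ, ∀ n : ℕ, N ≤ n →
      (Gamma n r 1 : ℝ) ≤ c * (Real.log n / Real.log (Real.log n)) := by
  have h1 := (Real.tendsto_log_atTop.comp tendsto_natCast_atTop_atTop).eventually (asym r hr c hc)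
  obtain ⟨N, hN⟩ := eventually_atTop.1 h1
  refine ⟨max N 2, fun n hn => ?_⟩
  obtain ⟨h2, h3⟩ := hN n (le_trans (le_max_left _ _) hn)
  have hn2 : 2 ≤ n := le_trans (le_max_right _ _) hn
  simp only [Function.comp_apply] at h2 h3
  set κ : ℕ := ⌊c * Real.log n / Real.log (Real.log n)⌋₊ with hκ
  have h4 : Gamma n r 1 ≤ κ := by
    refine csSup_le' ?_
    rintro k ⟨D, hD, rfl⟩
    exact gamma_le n r κ hr h2 (by omega) h3 D hD
  have h5 : 0 ≤ c * Real.log n / Real.log (Real.log n) := by
    by_contra h6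
    push Not at h6
    have : κ = 0 := Nat.floor_of_nonpos h6.le
    omega
  calc (Gamma n r 1 : ℝ) ≤ κ := by exact_mod_cast h4
    _ ≤ c * Real.log n / Real.log (Real.log n) := Nat.floor_le h5
    _ = _ := by rw [mul_div_assoc]

end Pool.Agent.TH634.DD
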